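import Pool.Agent.MP_856573_co.H74.Bas

/-! Small perturbations of a drawing with one bend per edge. -/

namespace Pool.Agent.MP_856573_co.H74

open Set Filter Topology
open Pool.Agent.MP_856573_co.H90 (OneBend IsFree chain)

namespace PertAux

/-- the plane -/
abbrev P2 := ℝ × ℝ

lemma closed_meet : IsClosed {z : (P2 × P2) × P2 × P2 |
    ¬Disjoint (segment ℝ z.1.1 z.1.2) (segment ℝ z.2.1 z.2.2)} := by
  have h : IsClosed {w : ((P2 × P2) × P2 × P2) × Icc (0 : ℝ) 1 × Icc (0 : ℝ) 1 |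
      (1 - w.2.1.1) • w.1.1.1 + w.2.1.1 • w.1.1.2 = (1 - w.2.2.1) • w.1.2.1 + w.2.2.1 • w.1.2.2} :=
    isClosed_eq (by fun_prop) (by fun_prop)
  convert isClosedMap_fst_of_compactSpace _ h using 1
  ext z
  simp only [mem_ofPred_eq, not_disjoint_iff, segment_eq_image, mem_image]
  constructor
  · rintro ⟨p, ⟨s, hs, rfl⟩, t, ht, e⟩
    exact ⟨(z, ⟨s, hs⟩, ⟨t, ht⟩), e.symm, rfl⟩
  · rintro ⟨⟨z, s, t⟩, e, rfl⟩
    exact ⟨_, ⟨s.1, s.2, rfl⟩, t.1, t.2, e.symm⟩

lemma ev_dis {a b c d : ℝ → P2} (ha : Continuous a) (hb : Continuous b) (hc : Continuous c)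
    (hd : Continuous d) (h : Disjoint (segment ℝ (a 0) (b 0)) (segment ℝ (c 0) (d 0))) :
    ∀ᶠ ε in 𝓝 (0 : ℝ), Disjoint (segment ℝ (a ε) (b ε)) (segment ℝ (c ε) (d ε)) := by
  have h1 := (closed_meet.preimage
    (f := fun ε => ((a ε, b ε), c ε, d ε)) (by fun_prop)).isOpen_compl.mem_nhds
    (x := 0) (by simpa using h)
  filter_upwards [h1] with ε hε
  simpa using hε

lemma ev_not {a c d : ℝ → P2} (ha : Continuous a) (hc : Continuous c) (hd : Continuous d)
    (h : a 0 ∉ segment ℝ (c 0) (d 0)) : ∀ᶠ ε in 𝓝 (0 : ℝ), a ε ∉ segment ℝ (c ε) (d ε) := by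
  simpa using ev_dis ha ha hc hd (by simpa using h)

/-- two segments with a common end -/
lemma meet {c a d p : P2} (h1 : a ∉ segment ℝ c d) (h2 : d ∉ segment ℝ c a)
    (p1 : p ∈ segment ℝ c a) (p2 : p ∈ segment ℝ c d) : p = c := by
  rw [segment_eq_image'] at *
  obtain ⟨s, ⟨s0, s1⟩, rfl⟩ := p1
  obtain ⟨t, ⟨t0, t1⟩, e⟩ := p2
  replace e : t • (d - c) = s • (a - c) := add_left_cancel e
  by_contra hne
  have hs : 0 < s := lt_of_le_of_ne s0 fun z => hne (by simp [← z])
  have ht : 0 < t := lt_of_le_of_ne t0 fun z => hne (by simp [← e, ← z])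
  rcases le_total t s with h | h
  · refine h1 ⟨t / s, ⟨by positivity, (div_le_one hs).2 h⟩, ?_⟩
    simp only [div_eq_inv_mul, mul_smul, e, inv_smul_smul₀ hs.ne', add_sub_cancel]
  · refine h2 ⟨s / t, ⟨by positivity, (div_le_one ht).2 h⟩, ?_⟩
    simp only [div_eq_inv_mul, mul_smul, ← e, inv_smul_smul₀ ht.ne', add_sub_cancel]

lemma mid {a c : P2} (h : a ≠ c) : c ∉ segment ℝ a (midpoint ℝ a c) := by
  rw [segment_eq_image']
  rintro ⟨t, ⟨t0, t1⟩, e⟩
  rw [midpoint_sub_left] at e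
  have : (1 - t * ⅟2) • (c - a) = 0 := by
    rw [sub_smul, one_smul, mul_smul, sub_eq_zero, sub_eq_iff_eq_add']
    exact e.symm
  rcases smul_eq_zero.1 this with z | z
  · rw [invOf_eq_inv] at z
    linarith
  · exact h (sub_eq_zero.1 z).symm

variable {V : Type} {G : SimpleGraph V}

/-- a drawing in general position -/
structure Gp (G : SimpleGraph V) (pos : V → P2) (b : V → V → P2) : Prop where
  sym : ∀ u v, G.Adj u v → b u v = b v u
  inj : ∀ u w, w ≠ u → pos w ≠ pos u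
  vx : ∀ u v w, G.Adj u v → w ≠ u → pos w ∉ segment ℝ (pos u) (b u v)
  dis : ∀ u v u' v', G.Adj u v → G.Adj u' v' → s(u, v) ≠ s(u', v') → u ≠ u' →
    Disjoint (segment ℝ (pos u) (b u v)) (segment ℝ (pos u') (b u' v'))
  com : ∀ u v v', G.Adj u v → G.Adj u v' → v ≠ v' → b u v ∉ segment ℝ (pos u) (b u v')

lemma Gp.half {pos : V → P2} {b : V → V → P2} (h : Gp G pos b) {u v u' v' : V} (a : G.Adj u v)
    (a' : G.Adj u' v') (ne : s(u, v) ≠ s(u', v')) {p : P2} (p1 : p ∈ segment ℝ (pos u) (b u v))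
    (p2 : p ∈ segment ℝ (pos u') (b u' v')) : u = u' ∧ p = pos u := by
  obtain rfl : u = u' := by
    by_contra c
    exact disjoint_left.1 (h.dis u v u' v' a a' ne c) p1 p2
  have : v ≠ v' := fun z => ne (by rw [z])
  exact ⟨rfl, meet (h.com u v v' a a' this) (h.com u v' v a' a this.symm) p1 p2⟩

lemma Gp.one {pos : V → P2} {b : V → V → P2} (h : Gp G pos b) : OneBend G pos := by
  have hc : ∀ u v p, G.Adj u v → p ∈ chain pos b u v →
      p ∈ segment ℝ (pos u) (b u v) ∨ p ∈ segment ℝ (pos v) (b v u) := fun u v p a hp => by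
    rw [← h.sym u v a, segment_symm ℝ (pos v)]
    exact hp
  refine ⟨b, fun u v a => ⟨h.sym u v a, ?_⟩, fun u w e => ?_, fun u v w a hw => ?_, ?_⟩
  · refine eq_singleton_iff_unique_mem.2 ⟨⟨right_mem_segment _ _ _, left_mem_segment _ _ _⟩,
      fun p hp => meet (a := pos u) (d := pos v) ?_ ?_ (by rw [segment_symm]; exact hp.1) hp.2⟩
    · rw [segment_symm, h.sym u v a]
      exact h.vx v u u a.symm a.ne
    · rw [segment_symm]
      exact h.vx u v v a a.ne'
  · by_contra c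
    exact h.inj w u c e
  · by_contra! c
    exact (hc u v _ a hw).elim (h.vx u v w a c.1) (h.vx v u w a.symm c.2)
  · intro u v u' v' a a' ne p p1 p2
    rcases hc u v p a p1 with q1 | q1 <;> rcases hc u' v' p a' p2 with q2 | q2
    · obtain ⟨e1, e2⟩ := h.half a a' ne q1 q2
      exact ⟨u, Or.inl rfl, Or.inl e1, e2⟩
    · obtain ⟨e1, e2⟩ := h.half a a'.symm (by rwa [Sym2.eq_swap (a := v')]) q1 q2
      exact ⟨u, Or.inl rfl, Or.inr e1, e2⟩
    · obtain ⟨e1, e2⟩ := h.half a.symm a' (by rwa [Sym2.eq_swap]) q1 q2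
      exact ⟨v, Or.inr rfl, Or.inl e1, e2⟩
    · obtain ⟨e1, e2⟩ := h.half a.symm a'.symm
        (by rwa [Sym2.eq_swap, Sym2.eq_swap (a := v')]) q1 q2
      exact ⟨v, Or.inr rfl, Or.inr e1, e2⟩

lemma exists_gp {pos : V → P2} (h : OneBend G pos) : ∃ b, Gp G pos b := by
  classical
  obtain ⟨b, h1, h2, h3, h4⟩ := h
  let c : V → V → P2 := fun u v =>
    if b u v = pos u ∨ b u v = pos v then midpoint ℝ (pos u) (pos v) else b u v
  have sub : ∀ u v, segment ℝ (pos u) (c u v) ⊆ chain pos b u v := fun u v => by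
    simp only [c]
    split_ifs with e
    · refine ((convex_segment _ _).segment_subset (left_mem_segment ℝ _ _)
        (midpoint_mem_segment (𝕜 := ℝ) _ _)).trans ?_
      rcases e with e | e <;> rw [chain, e]
      · exact subset_union_right
      · exact subset_union_left
    · exact subset_union_left
  have oth : ∀ u v, G.Adj u v → pos v ∉ segment ℝ (pos u) (c u v) := fun u v a => by
    simp only [c]
    split_ifs with e
    · exact mid fun z => a.ne (h2 z)
    · intro z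
      have : pos v ∈ ({b u v} : Set P2) := (h1 u v a).2 ▸ ⟨z, right_mem_segment _ _ _⟩
      exact e (Or.inr this.symm)
  have sym : ∀ u v, G.Adj u v → c u v = c v u := fun u v a => by
    simp only [c, (h1 u v a).1, or_comm, midpoint_comm]
  have half : ∀ u v u' v', G.Adj u v → G.Adj u' v' → s(u, v) ≠ s(u', v') → ∀ p,
      p ∈ segment ℝ (pos u) (c u v) → p ∈ segment ℝ (pos u') (c u' v') → u = u' ∧ p = pos u := by
    intro u v u' v' a a' ne p p1 p2
    obtain ⟨w, w1, w2, rfl⟩ := h4 u v u' v' a a' ne p (sub _ _ p1) (sub _ _ p2)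
    obtain rfl : w = u := w1.resolve_right fun z => oth u v a (z ▸ p1)
    exact ⟨w2.resolve_right fun z => oth u' v' a' (z ▸ p2), rfl⟩
  refine ⟨c, sym, fun u w ne e => ne (h2 e), fun u v w a ne hw => ?_,
    fun u v u' v' a a' ne nu => disjoint_left.2 fun p p1 p2 => nu (half u v u' v' a a' ne p p1 p2).1,
    fun u v v' a a' ne hw => ?_⟩
  · rcases h3 u v w a (sub _ _ hw) with z | z
    · exact ne z
    · exact oth u v a (z ▸ hw)
  · have := (half u v u v' a a' (by simpa [a.ne', a'.ne] using ne) _ (right_mem_segment _ _ _) hw).2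
    refine oth v u a.symm ?_
    rw [← this, sym u v a]
    exact right_mem_segment _ _ _

lemma Gp.map {pos : V → P2} {b : V → V → P2} (h : Gp G pos b) (L : P2 →ᵃ[ℝ] P2)
    (hL : Function.Injective L) : Gp G (fun u => L (pos u)) fun u v => L (b u v) := by
  refine ⟨fun u v a => congrArg L (h.sym u v a), fun u w ne e => h.inj u w ne (hL e),
    fun u v w a ne => ?_, fun u v u' v' a a' ne nu => ?_, fun u v v' a a' ne => ?_⟩
  · rw [← image_segment, hL.mem_set_image]
    exact h.vx u v w a ne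
  · rw [← image_segment, ← image_segment, disjoint_image_iff hL]
    exact h.dis u v u' v' a a' ne nu
  · rw [← image_segment, hL.mem_set_image]
    exact h.com u v v' a a' ne

lemma Gp.ev [Finite V] {p : ℝ → V → P2} {b : V → V → P2} (h : Gp G (p 0) b)
    (hp : ∀ u, Continuous fun ε => p ε u) : ∀ᶠ ε in 𝓝 (0 : ℝ), Gp G (p ε) b := by
  have e1 : ∀ᶠ ε in 𝓝 (0 : ℝ), ∀ u w, w ≠ u → p ε w ≠ p ε u := by
    simp only [eventually_all]
    exact fun u w ne => (isOpen_ne_fun (hp w) (hp u)).mem_nhds (h.inj u w ne)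
  have e2 : ∀ᶠ ε in 𝓝 (0 : ℝ), ∀ u v w, G.Adj u v → w ≠ u →
      p ε w ∉ segment ℝ (p ε u) (b u v) := by
    simp only [eventually_all]
    exact fun u v w a ne => ev_not (hp w) (hp u) continuous_const (h.vx u v w a ne)
  have e3 : ∀ᶠ ε in 𝓝 (0 : ℝ), ∀ u v u' v', G.Adj u v → G.Adj u' v' → s(u, v) ≠ s(u', v') →
      u ≠ u' → Disjoint (segment ℝ (p ε u) (b u v)) (segment ℝ (p ε u') (b u' v')) := by
    simp only [eventually_all]
    exact fun u v u' v' a a' ne nu =>
      ev_dis (hp u) continuous_const (hp u') continuous_const (h.dis u v u' v' a a' ne nu)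
  have e4 : ∀ᶠ ε in 𝓝 (0 : ℝ), ∀ u v v', G.Adj u v → G.Adj u v' → v ≠ v' →
      b u v ∉ segment ℝ (p ε u) (b u v') := by
    simp only [eventually_all]
    exact fun u v v' a a' ne =>
      ev_not continuous_const (hp u) continuous_const (h.com u v v' a a' ne)
  filter_upwards [e1, e2, e3, e4] with ε a1 a2 a3 a4
  exact ⟨h.sym, a1, a2, a3, a4⟩

end PertAux

open PertAux in
theorem pert : StmtPERT := by
  intro V _ G s v hv h
  refine ⟨hv, fun x y hx => ?_⟩
  obtain ⟨pos, h1, h2⟩ := h x hx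
  obtain ⟨b, hb⟩ := exists_gp h1
  have h3 := Gp.ev (G := G) (b := b)
    (p := fun ε u => pos u + ε • ((0 : ℝ), Function.extend v y 0 u)) (by simpa using hb)
    fun u => by fun_prop
  obtain ⟨ε, e1, e2⟩ := ((h3.filter_mono (nhdsWithin_le_nhds (s := Ioi 0))).and
    self_mem_nhdsWithin).exists
  have e3 : ε ≠ 0 := ne_of_gt e2
  refine ⟨_, (e1.map ((LinearMap.id : ℝ →ₗ[ℝ] ℝ).prodMap (ε⁻¹ • LinearMap.id)).toAffineMap
    fun a c e => ?_).one, fun i => ?_⟩
  · simpa [Prod.ext_iff, e3] using e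
  · simp [h2, hv.extend_apply, e3]

end Pool.Agent.MP_856573_co.H74
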